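import Pool.Agent.Helper34.SD.Defs

/-!
# Project SD (MP_41f897_lc), module C2a: words with a letter `1` among the last `M` letters
-/

set_option autoImplicit false

namespace Pool.Agent.Helper51.SD

open Pool.Agent.Helper34.SD Pool.Agent.Helper34.PT

/-- Module C2a. -/
theorem hC2a : Stmt_C1 → Stmt_C2a := by
  classical
  intro hC n k M hk
  obtain ⟨hfin, hcard⟩ := hC (n - 1) (k - 1)
  set A : Finset (List Bool) := hfin.toFinset with hA
  have hAc : A.card = (n - 1).choose (k - 1) := by
    rw [← hcard, Set.ncard_eq_toFinset_card _ hfin]
  set U : Finset (List Bool) := (Finset.range M).biUnion fun j =>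
    A.image fun x => x.take (n - 1 - j) ++ true :: x.drop (n - 1 - j) with hU
  have hsub : {w : List Bool | w.length = n ∧ w.count true = k ∧ true ∈ w.drop (n - M)} ⊆
      (U : Set (List Bool)) := by
    rintro w ⟨h1, h2, h3⟩
    obtain ⟨s, t, hst⟩ := List.append_of_mem h3
    have hw : w = (w.take (n - M) ++ s) ++ true :: t := by
      rw [List.append_assoc, ← hst, List.take_append_drop]
    obtain ⟨y, hy⟩ : ∃ y, y = w.take (n - M) ++ s := ⟨_, rfl⟩
    rw [← hy] at hw
    have hlen : y.length + t.length + 1 = n := by
      rw [← h1, hw, List.length_append, List.length_cons]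
      omega
    have ht : t.length + 1 ≤ M := by
      have h4 : (w.drop (n - M)).length = s.length + (t.length + 1) := by
        rw [hst, List.length_append, List.length_cons]
      rw [List.length_drop, h1] at h4
      omega
    have hcnt : (y ++ t).count true = k - 1 := by
      have h5 : w.count true = (y ++ t).count true + 1 := by
        rw [hw, List.count_append, List.count_append, List.count_cons_self]
        omega
      omega
    rw [hU, Finset.mem_coe, Finset.mem_biUnion]
    refine ⟨t.length, Finset.mem_range.2 (by omega), Finset.mem_image.2 ⟨y ++ t, ?_, ?_⟩⟩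
    · rw [hA, Set.Finite.mem_toFinset]
      refine ⟨?_, hcnt⟩
      rw [List.length_append]
      omega
    · have hi : n - 1 - t.length = y.length := by omega
      rw [hi, List.take_left, List.drop_left, ← hw]
  calc {w : List Bool | w.length = n ∧ w.count true = k ∧ true ∈ w.drop (n - M)}.ncard
      ≤ (U : Set (List Bool)).ncard := Set.ncard_le_ncard hsub (Finset.finite_toSet _)
    _ = U.card := Set.ncard_coe_finset U
    _ ≤ (Finset.range M).card * (n - 1).choose (k - 1) := by
        rw [hU]
        refine Finset.card_biUnion_le_card_mul _ _ _ fun j _ => ?_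
        exact Finset.card_image_le.trans hAc.le
    _ = M * (n - 1).choose (k - 1) := by rw [Finset.card_range]

end Pool.Agent.Helper51.SD
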